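import Pool.Agent.N931.PN.StmF

/-!
# PN/SSB: few blocks (helper441, for helper931)
-/

set_option autoImplicit false

namespace Pool.Agent.N441.PN.SSB

open H974 H12S H389NS Finset Pool.Agent.N931.PN

/-- **PN/SSB.** -/
theorem main : S_SSB := by
  classical
  intro S L hL f hf β J hJ hJs δ hδ hδL n
  obtain ⟨R, hR⟩ : ∃ R : Finset Edg → Finset Edg,
      ∀ Y, R Y = S.filter (fun e => ∃ e' ∈ J Y, β e' = β e) := ⟨_, fun _ => rfl⟩
  have hJR : ∀ Y, Y ⊆ S → J Y ⊆ R Y := by
    intro Y hY e he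
    rw [hR, mem_filter]
    exact ⟨hJ Y hY he, e, he, rfl⟩
  have hcap : ∀ Y Y', Y ⊆ S → Y ∩ R Y = Y' ∩ R Y → Y ∩ J Y = Y' ∩ J Y := by
    intro Y Y' hY h
    ext x
    have h1 : x ∈ Y ∩ R Y ↔ x ∈ Y' ∩ R Y := by rw [h]
    rw [mem_inter, mem_inter] at h1 ⊢
    constructor
    · rintro ⟨a, b⟩
      exact ⟨(h1.1 ⟨a, hJR Y hY b⟩).1, b⟩
    · rintro ⟨a, b⟩
      exact ⟨(h1.2 ⟨a, hJR Y hY b⟩).1, b⟩
  -- the sets with exactly `j` blocks
  have key : ∀ j : ℕ, 1 ≤ j →
      ∑ T ∈ L.powerset.filter (fun T => (T.image β).card = j), (wal S f T) ^ 2 ≤ j * δ := by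
    intro j hj
    refine schramm_steif (V := S) hf β R ?_ ?_ ?_ ?_ hj ?_ (by positivity) ?_
    · intro Y _
      rw [hR]
      exact filter_subset _ _
    · intro Y _ e he e' he' hb
      rw [hR, mem_filter] at he ⊢
      obtain ⟨-, e'', h1, h2⟩ := he
      exact ⟨he', e'', h1, h2.trans hb.symm⟩
    · intro Y Y' hY hY' h
      have h1 := (hJs Y Y' hY hY' (hcap Y Y' hY h)).1
      rw [hR, hR, h1]
    · intro Y Y' hY hY' h
      exact (hJs Y Y' hY hY' (hcap Y Y' hY h)).2
    · intro T hT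
      rw [mem_filter, mem_powerset] at hT
      exact ⟨hT.1.trans hL, hT.2⟩
    · intro T hT
      rw [mem_filter, mem_powerset] at hT
      have h1 : Pr hp S (fun Y => ¬ Disjoint T (R Y)) ≤
          Pr hp S (fun Y => ∃ i ∈ T.image β, ∃ e' ∈ J Y, β e' = i) := by
        refine Pr_mono SSx.hp_ok fun Y hY h => ?_
        rw [Finset.not_disjoint_iff] at h
        obtain ⟨e, he, heR⟩ := h
        rw [hR, mem_filter] at heR
        obtain ⟨-, e', h1, h2⟩ := heR
        exact ⟨β e, mem_image_of_mem β he, e', h1, h2⟩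
      refine h1.trans ((Pr_exists_le SSx.hp_ok S (T.image β)
        (fun i Y => ∃ e' ∈ J Y, β e' = i)).trans ?_)
      calc ∑ i ∈ T.image β, Pr hp S (fun Y => ∃ e' ∈ J Y, β e' = i)
          ≤ ∑ _i ∈ T.image β, δ := by
            refine sum_le_sum fun i hi => ?_
            obtain ⟨e, he, rfl⟩ := mem_image.1 hi
            exact hδL e (hT.1 he)
        _ = j * δ := by rw [sum_const, hT.2, nsmul_eq_mul]
  have hmaps : ∀ T ∈ L.powerset.filter (fun T => T.Nonempty ∧ (T.image β).card ≤ n),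
      (T.image β).card ∈ Finset.Icc 1 n := by
    intro T hT
    rw [mem_filter] at hT
    rw [mem_Icc]
    exact ⟨card_pos.2 (hT.2.1.image β), hT.2.2⟩
  rw [← sum_fiberwise_of_maps_to hmaps]
  calc ∑ j ∈ Finset.Icc 1 n, ∑ T ∈ (L.powerset.filter
          (fun T => T.Nonempty ∧ (T.image β).card ≤ n)).filter
            (fun T => (T.image β).card = j), (wal S f T) ^ 2
      ≤ ∑ _j ∈ Finset.Icc 1 n, (n : ℝ) * δ := by
        refine sum_le_sum fun j hj => ?_
        rw [mem_Icc] at hj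
        refine (sum_le_sum_of_subset_of_nonneg ?_ fun T _ _ => sq_nonneg _).trans
          ((key j hj.1).trans ?_)
        · intro T hT
          rw [mem_filter, mem_filter] at hT
          rw [mem_filter]
          exact ⟨hT.1.1, hT.2⟩
        · exact mul_le_mul_of_nonneg_right (by exact_mod_cast hj.2) hδ
    _ = (n : ℝ) ^ 2 * δ := by
        rw [sum_const, Nat.card_Icc, nsmul_eq_mul]
        have : n + 1 - 1 = n := by omega
        rw [this]
        ring

end Pool.Agent.N441.PN.SSB
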